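import Pool.Agent.Y124.AbFinal

/-!
# Equality of expressions in the periods of elliptic curves over `ℚ` ordered by height

Let `a, b ∈ ℤ` and let `λ` be a Legendre parameter of the elliptic curve `E_{a,b} : y² = x³ + a x + b`, so that `E_{a,b}`
is isomorphic over `ℚ̄` to `y² = x (x - 1) (x - λ)`. If `λ` is not in `(-∞, 0] ∪ [1, ∞)`, the field of periods of
`E_{a,b}` is generated, up to algebraic numbers, by `K(λ)`, `E(λ)`, `K(1 - λ)` and `π` (Legendre's relation). We count the
`n`-tuples of curves with `|a| ≤ X²`, `|b| ≤ X³` (there are about `X^(5n)` of them) with Legendre parameters in a given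
compact set such that two different polynomial expressions of degree at most `d` and height at most `X^A / 2` in the
`3n + 1` periods have values at distance at most `X^(-B)`. For all other tuples equality of two such expressions is
decided by comparing the polynomials, and the values of different expressions are told apart by `O(log X)` digits.
-/

set_option autoImplicit false

namespace Pool.Agent.Results.MP_bbe012_lc.EllipticCurvesByHeight

/-- Complete elliptic integral of the first kind, `K(m) = ∫_0^{π/2} (1 - m sin² θ)^(-1/2) dθ`. -/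
noncomputable def K (m : ℂ) : ℂ :=
  ∫ θ in (0 : ℝ)..(Real.pi / 2), (1 - m * (Real.sin θ : ℂ) ^ 2) ^ (-(1 / 2) : ℂ)

/-- Complete elliptic integral of the second kind, `E(m) = ∫_0^{π/2} (1 - m sin² θ)^(1/2) dθ`. -/
noncomputable def E (m : ℂ) : ℂ :=
  ∫ θ in (0 : ℝ)..(Real.pi / 2), (1 - m * (Real.sin θ : ℂ) ^ 2) ^ (1 / 2 : ℂ)

/-- `l` is a Legendre parameter of the curve `y² = x³ + a x + b`: `l = (e₃ - e₁) / (e₂ - e₁)`, where `e₁`, `e₂`, `e₃`
are the roots of `x³ + a x + b` in some order. -/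
def IsLegendreParameter (a b : ℤ) (l : ℂ) : Prop :=
  ∃ e₁ e₂ e₃ : ℂ, e₁ ≠ e₂ ∧ (∀ x : ℂ, x ^ 3 + a * x + b = (x - e₁) * (x - e₂) * (x - e₃)) ∧
    l = (e₃ - e₁) / (e₂ - e₁)

/-- The `3n + 1` numbers `π`, `K(l_j)`, `E(l_j)`, `K(1 - l_j)`. -/
noncomputable def periods {n : ℕ} (l : Fin n → ℂ) (x : Option (Fin n × Fin 3)) : ℂ :=
  match x with
  | none => Real.pi
  | some (j, i) => ![K (l j), E (l j), K (1 - l j)] i

/-- The `n`-tuples of pairs `(a_j, b_j)` of integers with `|a_j| ≤ X²`, `|b_j| ≤ X³` such that the curves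
`y² = x³ + a_j x + b_j` have Legendre parameters `l_j ∈ L` for which some nonzero polynomial in `3n + 1` variables with
integer coefficients of absolute value at most `X ^ A`, of degree at most `d` in each variable, takes at the periods a
value of absolute value at most `X ^ (-B)`. -/
def Exceptional (n d : ℕ) (L : Set ℂ) (A B X : ℝ) : Set (Fin n → ℤ × ℤ) :=
  {p | (∀ j, |((p j).1 : ℝ)| ≤ X ^ 2 ∧ |((p j).2 : ℝ)| ≤ X ^ 3) ∧ ∃ l : Fin n → ℂ,
    (∀ j, l j ∈ L ∧ IsLegendreParameter (p j).1 (p j).2 (l j)) ∧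
    ∃ P : MvPolynomial (Option (Fin n × Fin 3)) ℤ, P ≠ 0 ∧ (∀ x, P.degreeOf x ≤ d) ∧
      (∀ s, |((P.coeff s : ℤ) : ℝ)| ≤ X ^ A) ∧ ‖MvPolynomial.aeval (periods l) P‖ ≤ X ^ (-B)}

/-- Let `L` be a compact subset of `ℂ` without `(-∞, 0] ∪ [1, ∞)`, `1/2` and the zeros of `l² - l + 1` (so that
`j ≠ 0, 1728`), let `n ≥ 1`, `d`, `A` and `ε > 0` be given. There are `B` and `C` such that for all `X ≥ 1` the number of
exceptional `n`-tuples is at most `C X^(5(n - 1) + 1 + ε)`. -/
theorem result (n d : ℕ) (hn : 1 ≤ n) (L : Set ℂ) (hL : IsCompact L)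
    (hL' : ∀ l ∈ L, l ∈ Complex.slitPlane ∧ 1 - l ∈ Complex.slitPlane ∧ l ≠ 1 / 2 ∧ l ^ 2 - l + 1 ≠ 0)
    (A ε : ℝ) (hε : 0 < ε) :
    ∃ B C : ℝ, ∀ X : ℝ, 1 ≤ X → (Exceptional n d L A B X).Finite ∧
      ((Exceptional n d L A B X).ncard : ℝ) ≤ C * X ^ (5 * ((n : ℝ) - 1) + 1 + ε) := by
  classical
  obtain ⟨B, C, h⟩ := Y124.ab_final n d hn L hL hL' A ε hε
  refine ⟨B, C, fun X hX => ?_⟩
  have hsub : Exceptional n d L A B X ⊆ Y124.ExcAB n d L A B X := by
    rintro p ⟨hp, l, hl, P, hP0, hPd, hPc, hPs⟩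
    let e : Option (Fin n × Fin 3) ≃ (Fin n × Fin 3) ⊕ Unit := Equiv.optionEquivSumPUnit (Fin n × Fin 3)
    refine ⟨hp, l, hl, MvPolynomial.rename e P, ?_, ?_, ?_, ?_⟩
    · intro h0
      exact hP0 (MvPolynomial.rename_injective e e.injective (by rw [h0, map_zero]))
    · intro i
      obtain ⟨w, rfl⟩ := e.surjective i
      rw [MvPolynomial.degreeOf_rename_of_injective e.injective]
      exact hPd w
    · intro s
      have h1 : Finsupp.mapDomain e (Finsupp.mapDomain e.symm s) = s := by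
        rw [← Finsupp.mapDomain_comp]
        simp
      rw [← h1, MvPolynomial.coeff_rename_mapDomain e e.injective]
      exact hPc _
    · rw [MvPolynomial.aeval_rename]
      have h1 : (Sum.elim (fun c : Fin n × Fin 3 => Y124.fC c.2 (l c.1)) fun _ => (Real.pi : ℂ)) ∘ e = periods l := by
        funext w
        cases w with
        | none => rfl
        | some w =>
          obtain ⟨j, i⟩ := w
          fin_cases i
          · rfl
          · rfl
          · rfl
      rw [h1]
      exact hPs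
  obtain ⟨h1, h2⟩ := h X hX
  exact ⟨h1.subset hsub, le_trans (by exact_mod_cast Set.ncard_le_ncard hsub h1) h2⟩

end Pool.Agent.Results.MP_bbe012_lc.EllipticCurvesByHeight
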