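import Pool.Agent.Y776.Cv.Hyp

/-!
# Periods of hypergeometric motives of Calabi–Yau type at the points of all number fields of bounded degree

Let `β_1, …, β_m` be rational numbers which are not integers, `n = 2m` and `θ = z d/dz`. The hypergeometric operator
`θ^n - z ∏_j (θ - β_j) (θ + β_j)` has maximally unipotent monodromy at `z = 0`. For `m = 1` its solutions are periods of
families of elliptic curves, for `m = 2` and `β = (1/5, 2/5)` it is contiguous to the operator of the mirror quintic.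
Let `f_0, …, f_{n-1}` be the Frobenius basis of the solutions at `z = 0` and `Y(z) = (θ^i f_j)`, and continue `log z` and
`Y` analytically to any region. The periods of the fibre at `z` of the corresponding family of motives are the entries of
`Y(z) Ω`, with a constant matrix `Ω`.

We show that for the points `z` of height at most `T` in a fixed compact set, in any number field `F` of bounded degree,
and for all tuples `(z_1, …, z_k)` of such points with the exception of at most `C T^ε N^(k-1)` (`N` is the number of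
points), every polynomial relation of bounded degree and of height at most `T^A` between the numbers `log z_i` and the
entries of the matrices `Y_i(z_i) Ω_i` is identically satisfied on `∏ (ℂ × Sp(J_i) Ω_i)`, and that the same is true for
relations which are satisfied only up to an error `T^(-B)`. The coefficients of the relations are taken in
`F ξ_1 + ⋯ + F ξ_g`, where the `ξ_i` are arbitrary complex numbers, and the constants do not depend on `F`, on the `ξ_i`
and on the matrices `Ω_i`.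
-/

set_option autoImplicit false

open PowerSeries NumberField Topology
open Pool.Agent

namespace Pool.Agent.Results.MP_bbe012_lc.HypergeometricNumberFields

/-- the power series `k + ε` in the variable `ε` -/
noncomputable def shift (k : ℕ) : PowerSeries ℚ := C (k : ℚ) + X

/-- `a_k(ε) = ∏_{l < k} ∏_j ((l + ε)^2 - β_j^2) / (l + 1 + ε)^(2m)`. The series `∑_k a_k(ε) z^(k + ε)` solves the
equation `(θ^n - z ∏_j (θ^2 - β_j^2)) f = ε^n z^ε`, hence its coefficients `f_j` at `ε^j` with `j < n = 2m` are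
solutions of the homogeneous equation. -/
noncomputable def frob {m : ℕ} (β : Fin m → ℚ) (k : ℕ) : PowerSeries ℚ :=
  ∏ l ∈ Finset.range k, ((∏ j, (shift l ^ 2 - C (β j ^ 2))) * ((shift (l + 1))⁻¹) ^ (2 * m))

/-- The matrix with the entries `(θ^i f_j)(z)`, where `f_j(z)` is the coefficient of `ε^j` in the series
`∑_k a_k(ε) z^(k + ε)`, `z^ε = ∑_l (log z)^l ε^l / l!`. -/
noncomputable def frobenius {m : ℕ} (β : Fin m → ℚ) (z : ℂ) : Matrix (Fin (2 * m)) (Fin (2 * m)) ℂ :=
  Matrix.of fun i j => ∑ l ∈ Finset.range ((j : ℕ) + 1), Complex.log z ^ l / (l.factorial : ℂ) *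
    ∑' k : ℕ, ((coeff ((j : ℕ) - l) (shift k ^ (i : ℕ) * frob β k) : ℚ) : ℂ) * z ^ k

/-- `Branch β U w Y`: the pair `(w, Y)` of a function and of a matrix of functions on the region `U` is obtained by
analytic continuation from the pair `(log z, frobenius β z)` on the disc `|z| < 1` without `(-1, 0]`. -/
inductive Branch {m : ℕ} (β : Fin m → ℚ) : Set ℂ → (ℂ → ℂ) → (ℂ → Matrix (Fin (2 * m)) (Fin (2 * m)) ℂ) → Prop
  | base : Branch β (Metric.ball 0 1 ∩ Complex.slitPlane) Complex.log (frobenius β)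
  | continuation {U U' : Set ℂ} {w w' : ℂ → ℂ} {Y Y' : ℂ → Matrix (Fin (2 * m)) (Fin (2 * m)) ℂ} :
      Branch β U w Y → IsOpen U' → IsPreconnected U' → AnalyticOnNhd ℂ w' U' →
      (∀ i j, AnalyticOnNhd ℂ (fun z => Y' z i j) U') →
      (∃ z₀ ∈ U ∩ U', ∀ᶠ z in 𝓝 z₀, w' z = w z ∧ Y' z = Y z) → Branch β U' w' Y'

/-- the polynomial `∏_j (x^2 - β_j^2)` -/
noncomputable def poly {m : ℕ} (β : Fin m → ℚ) : Polynomial ℚ := ∏ j, (Polynomial.X ^ 2 - Polynomial.C (β j ^ 2))

/-- The matrix of the intersection form: the entry `(i, j)` is `(-1)^i q_{i+j+1-n}` for `i + j + 1 ≥ n` and `0`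
otherwise, where `q_l` are the coefficients of `∏_j (x^2 - β_j^2)`. -/
noncomputable def J {m : ℕ} (β : Fin m → ℚ) : Matrix (Fin (2 * m)) (Fin (2 * m)) ℂ :=
  Matrix.of fun i j => if 2 * m ≤ (i : ℕ) + j + 1 then (((-1) ^ (i : ℕ) * (poly β).coeff (i + j + 1 - 2 * m) : ℚ) : ℂ) else 0

/-- the symplectic group of the form `J` -/
def Sp {m : ℕ} (β : Fin m → ℚ) : Set (Matrix (Fin (2 * m)) (Fin (2 * m)) ℂ) := {g | g.transpose * J β * g = J β}

/-- the coordinates of the `k`-tuples of a number and a `n_i × r_i` matrix -/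
abbrev Coord {k : ℕ} (n r : Fin k → ℕ) : Type := Σ i : Fin k, Fin 1 ⊕ (Fin (n i) × Fin (r i))

/-- the point with the coordinates `l_i` and the entries of the matrices `X_i` -/
def point {k : ℕ} {n r : Fin k → ℕ} (l : Fin k → ℂ) (X : ∀ i, Matrix (Fin (n i)) (Fin (r i)) ℂ) : Coord n r → ℂ
  | ⟨i, Sum.inl _⟩ => l i
  | ⟨i, Sum.inr p⟩ => X i p.1 p.2

/-- The elements of the number field `F` with image in `K` which are quotients of two integers of `F` all of whose
conjugates have absolute value at most `T`. -/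
def Points (F : Type) [Field F] [NumberField F] (ι : F →+* ℂ) (K : Set ℂ) (T : ℝ) : Set F :=
  {x | ι x ∈ K ∧ ∃ a b : 𝓞 F, b ≠ 0 ∧ (∀ φ : F →+* ℂ, ‖φ a‖ ≤ T ∧ ‖φ b‖ ≤ T) ∧ x = a / b}

/-- The polynomials of degree at most `δ` in each variable, with coefficients of the form `∑ ξ_i ι(c_i)`, where the `c_i`
are integers of `F` all of whose conjugates have absolute value at most `H`. -/
def Relations {k : ℕ} {n r : Fin k → ℕ} (δ : ℕ) {g : ℕ} (F : Type) [Field F] [NumberField F] (ι : F →+* ℂ)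
    (ξ : Fin g → ℂ) (H : ℝ) : Set (MvPolynomial (Coord n r) ℂ) :=
  {P | (∀ y, P.degreeOf y ≤ δ) ∧
    ∀ s, ∃ c : Fin g → 𝓞 F, (∀ i (φ : F →+* ℂ), ‖φ (c i)‖ ≤ H) ∧ P.coeff s = ∑ i, ξ i * ι (c i)}

/-- The tuples `t` for which one of these polynomials vanishes at the point with the coordinates `w_i(t_i)` and the
entries of the matrices `Y_i(t_i) Ω_i`, but not on all of `∏ (ℂ × Sp(J_i) Ω_i)`. -/
def Exceptional {k : ℕ} {m r : Fin k → ℕ} (δ : ℕ) {g : ℕ} (β : ∀ i, Fin (m i) → ℚ) (w : Fin k → ℂ → ℂ)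
    (Y : ∀ i, ℂ → Matrix (Fin (2 * m i)) (Fin (2 * m i)) ℂ) (Ω : ∀ i, Matrix (Fin (2 * m i)) (Fin (r i)) ℂ)
    (F : Type) [Field F] [NumberField F] (ι : F →+* ℂ) (ξ : Fin g → ℂ) (K : Fin k → Set ℂ) (A T : ℝ) :
    Set (Fin k → F) :=
  {t | (∀ i, t i ∈ Points F ι (K i) T) ∧ ∃ P ∈ Relations δ F ι ξ (T ^ A),
    MvPolynomial.eval (point (fun i => w i (ι (t i))) fun i => Y i (ι (t i)) * Ω i) P = 0 ∧
    ∃ (l : Fin k → ℂ) (h : ∀ i, Matrix (Fin (2 * m i)) (Fin (2 * m i)) ℂ), (∀ i, h i ∈ Sp (β i)) ∧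
      MvPolynomial.eval (point l fun i => h i * Ω i) P ≠ 0}

/-- The tuples `t` for which the absolute value of one of these polynomials at the point with the coordinates `w_i(t_i)`
and the entries of the matrices `Y_i(t_i) Ω_i` is at most `T^(-B)` times its nonzero absolute value at a point of
`∏ (ℂ × Sp(J_i) Ω_i)` given by numbers and matrices with entries of absolute value at most `R`. -/
def AlmostExceptional {k : ℕ} {m r : Fin k → ℕ} (δ : ℕ) {g : ℕ} (β : ∀ i, Fin (m i) → ℚ) (w : Fin k → ℂ → ℂ)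
    (Y : ∀ i, ℂ → Matrix (Fin (2 * m i)) (Fin (2 * m i)) ℂ) (Ω : ∀ i, Matrix (Fin (2 * m i)) (Fin (r i)) ℂ)
    (F : Type) [Field F] [NumberField F] (ι : F →+* ℂ) (ξ : Fin g → ℂ) (K : Fin k → Set ℂ) (A B R T : ℝ) :
    Set (Fin k → F) :=
  {t | (∀ i, t i ∈ Points F ι (K i) T) ∧ ∃ P ∈ Relations δ F ι ξ (T ^ A),
    ∃ (l : Fin k → ℂ) (h : ∀ i, Matrix (Fin (2 * m i)) (Fin (2 * m i)) ℂ), (∀ i, h i ∈ Sp (β i)) ∧
      (∀ i, ‖l i‖ ≤ R) ∧ (∀ i a b, ‖h i a b‖ ≤ R) ∧
      MvPolynomial.eval (point l fun i => h i * Ω i) P ≠ 0 ∧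
      ‖MvPolynomial.eval (point (fun i => w i (ι (t i))) fun i => Y i (ι (t i)) * Ω i) P‖ ≤
        T ^ (-B) * ‖MvPolynomial.eval (point l fun i => h i * Ω i) P‖}

theorem frob_eq {m : ℕ} (β : Fin m → ℚ) (k : ℕ) : frob β k = Y119.HY.aq (2 * m) (Y119.HY.QB β) k := by
  unfold frob Y119.HY.aq
  refine Finset.prod_congr rfl fun l _ => ?_
  congr 1
  unfold Y119.HY.QB
  rw [map_prod]
  refine Finset.prod_congr rfl fun j _ => ?_
  simp only [map_sub, map_pow, Polynomial.aeval_X, Polynomial.aeval_C]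
  rfl

theorem J_eq {m : ℕ} (β : Fin m → ℚ) : J β = Y119.HY.cm (Y119.HY.Jm (2 * m) (Y119.HY.QB β)) := by
  ext i j
  rw [Y119.HY.cm_apply]
  unfold J Y119.HY.Jm
  rw [Matrix.of_apply, Matrix.of_apply]
  split_ifs
  · rfl
  · simp

theorem frobenius_eq {m : ℕ} (β : Fin m → ℚ) (z : ℂ) :
    frobenius β z = Y119.HY.Yf (Y119.HY.cm (Y119.HY.Am (2 * m))) (Y119.HY.Hc (2 * m) (Y119.HY.QB β)) z := by
  ext i j
  unfold frobenius Y119.HY.Yf
  rw [Matrix.of_apply, Matrix.mul_apply]
  have hE : ∀ c : Fin (2 * m), Y119.HY.E (Y119.HY.cm (Y119.HY.Am (2 * m))) (Complex.log z) c j =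
      ∑ l ∈ Finset.range (2 * m), if (j : ℕ) = c + l then Complex.log z ^ l / (l.factorial : ℂ) else 0 := by
    intro c
    unfold Y119.HY.E
    rw [Matrix.sum_apply]
    refine Finset.sum_congr rfl fun l _ => ?_
    rw [Matrix.smul_apply, ← Y119.HY.cm_pow, Y119.HY.cm_apply, Y119.HY.Am_pow, smul_eq_mul]
    split_ifs <;> simp
  simp only [hE, Finset.mul_sum]
  rw [Finset.sum_comm]
  have hsub : Finset.range ((j : ℕ) + 1) ⊆ Finset.range (2 * m) := by
    intro l hl
    rw [Finset.mem_range] at hl ⊢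
    have := j.2
    omega
  refine Finset.sum_subset_zero_on_sdiff hsub (fun l hl => ?_) fun l hl => ?_
  · rw [Finset.mem_sdiff, Finset.mem_range, Finset.mem_range] at hl
    refine Finset.sum_eq_zero fun c _ => ?_
    rw [if_neg (by omega), mul_zero]
  · rw [Finset.mem_range] at hl
    have hj := j.2
    rw [Finset.sum_eq_single (⟨(j : ℕ) - l, by omega⟩ : Fin (2 * m))]
    · rw [if_pos (by simp only; omega), mul_comm]
      congr 1
      unfold Y119.HY.Hf Y119.HY.ps
      rw [Matrix.of_apply]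
      refine tsum_congr fun k => ?_
      change _ = ((Y119.HY.hq (2 * m) (Y119.HY.QB β) k i ((j : ℕ) - l) : ℚ) : ℂ) * z ^ k
      rw [frob_eq]
      rfl
    · intro c _ hc
      rw [if_neg, mul_zero]
      intro h
      apply hc
      apply Fin.ext
      simp only
      omega
    · intro h
      exact absurd (Finset.mem_univ _) h

theorem Branch.spF {m : ℕ} {β : Fin m → ℚ} (hQ : Y119.HY.QD (2 * m) (Y119.HY.QB β)) {U : Set ℂ} {w : ℂ → ℂ}
    {Y : ℂ → Matrix (Fin (2 * m)) (Fin (2 * m)) ℂ} (h : Branch β U w Y) :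
    Y776.Cv.SpF U (J β) (fun _ : Fin 1 => w) Y := by
  induction h with
  | base =>
    rw [J_eq, show frobenius β = Y119.HY.Yf (Y119.HY.cm (Y119.HY.Am (2 * m)))
      (Y119.HY.Hc (2 * m) (Y119.HY.QB β)) from funext fun z => frobenius_eq β z]
    exact Y776.Cv.hyp_SpF hQ
  | continuation _ hU' hc' hw' hY' hz ih =>
    refine ih.step hU' hc' (fun _ => hw') hY' ?_
    obtain ⟨z₀, hz₀, hev⟩ := hz
    exact ⟨z₀, hz₀, hev.mono fun z hz => ⟨fun _ => hz.1, hz.2⟩⟩

/-- Let `β_i`, `1 ≤ i ≤ k`, be finite non-empty families of rational numbers which are not integers, let `J_i` be the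
alternating form and `(w_i, Y_i)` any branch on `U_i` of the logarithm and of the Frobenius matrix of the hypergeometric
equation `(θ^(2 m_i) - z ∏_j (θ^2 - β_{i,j}^2)) f = 0`, and let `K_i` be a compact subset of `U_i`. Then the forms `J_i`
are alternating and non-degenerate, the matrices `Y_i(z)` lie in the symplectic group `Sp(J_i)` and for all `n`, `δ`,
`g`, `r_i`, `A` and `ε > 0` there are `C` and `T₀` such that for every number field `F` of degree at most `n`, every
embedding of `F` in `ℂ`, all complex numbers `ξ_1, …, ξ_g`, all complex `2 m_i × r_i` matrices `Ω_i` and all `T ≥ T₀`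
the number of exceptional tuples of points of `F` is at most `C T^ε N^(k-1)`, where `N` is the number of the points in
the union of the `K_i`. More generally for every `R` there is `B` such that the number of almost exceptional tuples has
the same bound, with the same `C` and `T₀`. -/
theorem result (k : ℕ) (m : Fin k → ℕ) (hm : ∀ i, 1 ≤ m i) (β : ∀ i, Fin (m i) → ℚ)
    (hβ : ∀ i j, ∀ a : ℤ, β i j ≠ a) (U : Fin k → Set ℂ) (w : Fin k → ℂ → ℂ)
    (Y : ∀ i, ℂ → Matrix (Fin (2 * m i)) (Fin (2 * m i)) ℂ) (hB : ∀ i, Branch (β i) (U i) (w i) (Y i))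
    (K : Fin k → Set ℂ) (hK : ∀ i, IsCompact (K i)) (hKU : ∀ i, K i ⊆ U i) :
    (∀ i, (J (β i)).transpose = -J (β i) ∧ (J (β i)).det ≠ 0 ∧ ∀ z ∈ U i, Y i z ∈ Sp (β i)) ∧
    ∀ (n δ g : ℕ) (r : Fin k → ℕ) (A ε : ℝ), 0 < ε → ∃ C T₀ : ℝ,
      (∀ (F : Type) [Field F] [NumberField F], Module.finrank ℚ F ≤ n → ∀ (ι : F →+* ℂ) (ξ : Fin g → ℂ)
        (Ω : ∀ i, Matrix (Fin (2 * m i)) (Fin (r i)) ℂ) (T : ℝ), T₀ ≤ T →
        (Exceptional δ β w Y Ω F ι ξ K A T).Finite ∧
          ((Exceptional δ β w Y Ω F ι ξ K A T).ncard : ℝ) ≤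
            C * T ^ ε * ((Points F ι (⋃ i, K i) T).ncard : ℝ) ^ (k - 1)) ∧
      ∀ R : ℝ, ∃ B : ℝ, ∀ (F : Type) [Field F] [NumberField F], Module.finrank ℚ F ≤ n → ∀ (ι : F →+* ℂ)
        (ξ : Fin g → ℂ) (Ω : ∀ i, Matrix (Fin (2 * m i)) (Fin (r i)) ℂ) (T : ℝ), T₀ ≤ T →
        (AlmostExceptional δ β w Y Ω F ι ξ K A B R T).Finite ∧
          ((AlmostExceptional δ β w Y Ω F ι ξ K A B R T).ncard : ℝ) ≤
            C * T ^ ε * ((Points F ι (⋃ i, K i) T).ncard : ℝ) ^ (k - 1) := by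
  classical
  have hβ' : ∀ i, ∀ j, ∀ l : ℕ, (l : ℚ) + β i j ≠ 0 ∧ (l : ℚ) + -β i j ≠ 0 := by
    intro i j l
    constructor
    · intro h
      apply hβ i j (-(l : ℤ))
      push_cast
      linear_combination h
    · intro h
      apply hβ i j (l : ℤ)
      push_cast
      linear_combination -h
  have hQ := fun i => Y119.HZ.QD_QB (hm i) (hβ' i)
  have hS := fun i => (hB i).spF (hQ i)
  refine ⟨fun i => ⟨(hS i).skew, (hS i).det, fun z hz => (hS i).form z hz⟩, fun n δ g r A ε hε => ?_⟩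
  obtain ⟨C, T₀, hC, hT₀, H1, H2⟩ := Y776.Cv.nf_sp' (η := Fin g) (N' := r) n k δ hS hK hKU
    (S := ⋃ i, K i) (fun i => Set.subset_iUnion K i) A ε hε
  have hpt : ∀ (l : Fin k → ℂ) (X : ∀ i, Matrix (Fin (2 * m i)) (Fin (r i)) ℂ),
      point l X = Y776.Cv.ptt (e := fun _ => 1) (fun i _ => l i) X := by
    intro l X
    funext v
    obtain ⟨i, a | p⟩ := v <;> rfl
  have hP : ∀ (F : Type) [Field F] [NumberField F] (ι : F →+* ℂ) (L : Set ℂ) (T : ℝ), 0 ≤ T →
      Points F ι L T = {x : F | Y120.HtLe F T x ∧ ι x ∈ L} := by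
    intro F _ _ ι L T hT0
    ext x
    constructor
    · rintro ⟨h1, a, b, hb, hab, hx⟩
      exact ⟨⟨a, b, hb, Y120.house_le F hT0 fun φ => (hab φ).1, Y120.house_le F hT0 fun φ => (hab φ).2, hx⟩, h1⟩
    · rintro ⟨⟨a, b, hb, ha, hb', hx⟩, h1⟩
      exact ⟨h1, a, b, hb, fun φ => ⟨(Y120.house_ge F _ φ).trans ha, (Y120.house_ge F _ φ).trans hb'⟩, hx⟩
  refine ⟨C, T₀, ?_, fun R => ?_⟩
  · intro F _ _ hn ι ξ Ω T hT
    have hT0 : 0 ≤ T := by linarith
    rw [hP F ι _ T hT0]
    refine H2 F hn ι ξ Ω T hT _ ?_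
    rintro t ⟨ht, P, ⟨hPd, hPc⟩, h0, l, h, hh, hne⟩
    refine ⟨fun i => ?_, P, hPd, hPc, ?_, fun i _ => l i, h, hh, ?_⟩
    · have h1 := ht i
      rw [hP F ι _ T hT0] at h1
      exact h1
    · rw [hpt] at h0
      exact h0
    · rw [hpt] at hne
      exact hne
  · obtain ⟨B, HB⟩ := H1 R
    refine ⟨B, fun F _ _ hn ι ξ Ω T hT => ?_⟩
    have hT0 : 0 ≤ T := by linarith
    rw [hP F ι _ T hT0]
    refine HB F hn ι ξ Ω T hT _ ?_
    rintro t ⟨ht, P, ⟨hPd, hPc⟩, l, h, hh, hl, hhR, hne, hle⟩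
    refine ⟨fun i => ?_, P, hPd, hPc, fun i _ => l i, h, hh, fun i _ => hl i, hhR, ?_, ?_⟩
    · have h1 := ht i
      rw [hP F ι _ T hT0] at h1
      exact h1
    · rw [hpt] at hne
      exact hne
    · rw [hpt, hpt] at hle
      exact hle

end Pool.Agent.Results.MP_bbe012_lc.HypergeometricNumberFields
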