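import Pool.Agent.Y124.NFPoly

/-!
# The period conjecture for `M ⊕ h¹(E_1) ⊕ … ⊕ h¹(E_n)`, relative to an arbitrary motive `M`, over all number fields

Let `F` be a number field in `ℂ`, let `M` be any motive over `F`, and for `λ ∈ F` let `E_λ : y² = x (x - 1) (x - λ)`. If
`λ` is not in `(-∞, 0] ∪ [1, ∞)`, the periods of `E_λ` are generated, over the algebraic numbers and up to `π`, by
`K(λ)`, `E(λ)`, `K(1 - λ)`. The conjecture for `M` and for `M ⊕ h¹(E_{λ_1}) ⊕ … ⊕ h¹(E_{λ_n})` says that in general the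
`3n` numbers `K(λ_j)`, `E(λ_j)`, `K(1 - λ_j)` are algebraically independent over the field generated by the periods of
`M`. Here `ξ_1, …, ξ_g` is an arbitrary system of complex numbers, for instance the monomials up to a given degree in the
periods of `M`.
-/

set_option autoImplicit false

open NumberField

namespace Pool.Agent.Results.MP_bbe012_lc.RelativeNumberFields

/-- Complete elliptic integral of the first kind, `K(m) = ∫_0^{π/2} (1 - m sin² θ)^(-1/2) dθ`. -/
noncomputable def K (m : ℂ) : ℂ :=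
  ∫ θ in (0 : ℝ)..(Real.pi / 2), (1 - m * (Real.sin θ : ℂ) ^ 2) ^ (-(1 / 2) : ℂ)

/-- Complete elliptic integral of the second kind, `E(m) = ∫_0^{π/2} (1 - m sin² θ)^(1/2) dθ`. -/
noncomputable def E (m : ℂ) : ℂ :=
  ∫ θ in (0 : ℝ)..(Real.pi / 2), (1 - m * (Real.sin θ : ℂ) ^ 2) ^ (1 / 2 : ℂ)

/-- The elements of the number field `F` with image in `L` which are quotients of two integers of `F` all of whose
conjugates have absolute value at most `T`. -/
def Points (F : Type) [Field F] [NumberField F] (ι : F →+* ℂ) (L : Set ℂ) (T : ℝ) : Set F :=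
  {x | ι x ∈ L ∧ ∃ a b : 𝓞 F, b ≠ 0 ∧ (∀ φ : F →+* ℂ, ‖φ a‖ ≤ T ∧ ‖φ b‖ ≤ T) ∧ x = a / b}

/-- The `3n` numbers `K(l_j)`, `E(l_j)`, `K(1 - l_j)`. -/
noncomputable def periods {n : ℕ} (l : Fin n → ℂ) (x : Fin n × Fin 3) : ℂ :=
  ![K (l x.1), E (l x.1), K (1 - l x.1)] x.2

/-- The `n`-tuples `t` of points of `F` for which there is a polynomial `P` of degree at most `d` in each of `3n`
variables, with coefficients of the form `∑ ξ_i ι(c_i)`, where the `c_i` are integers of `F` all of whose conjugates have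
absolute value at most `T ^ A`, such that the value of `P` at the periods is at most `T ^ (-B)` times the absolute value
of some nonzero coefficient of `P`. -/
def Exceptional (n d : ℕ) {g : ℕ} (F : Type) [Field F] [NumberField F] (ι : F →+* ℂ) (ξ : Fin g → ℂ) (L : Set ℂ)
    (A B T : ℝ) : Set (Fin n → F) :=
  {t | (∀ j, t j ∈ Points F ι L T) ∧ ∃ P : MvPolynomial (Fin n × Fin 3) ℂ, (∀ x, P.degreeOf x ≤ d) ∧
    (∀ s, ∃ c : Fin g → 𝓞 F, (∀ i (φ : F →+* ℂ), ‖φ (c i)‖ ≤ T ^ A) ∧ P.coeff s = ∑ i, ξ i * ι (c i)) ∧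
    ∃ s₀, P.coeff s₀ ≠ 0 ∧ ‖MvPolynomial.aeval (periods fun j => ι (t j)) P‖ ≤ T ^ (-B) * ‖P.coeff s₀‖}

/-- Let `L` be a compact subset of `ℂ` without `(-∞, 0] ∪ [1, ∞)`. For all `m`, `n`, `g`, `d`, `A` and `ε > 0` there are
`B`, `C`, `T₀` such that for every number field `F` of degree at most `m`, every embedding of `F` in `ℂ`, all complex
numbers `ξ_1, …, ξ_g` and all `T ≥ T₀` the number of exceptional `n`-tuples is at most `C T^ε N^(n - 1)`, where `N` is the
number of points. -/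
theorem result (m n g d : ℕ) (L : Set ℂ) (hL : IsCompact L)
    (hL' : ∀ l ∈ L, l ∈ Complex.slitPlane ∧ 1 - l ∈ Complex.slitPlane) (A ε : ℝ) (hε : 0 < ε) :
    ∃ B C T₀ : ℝ, ∀ (F : Type) [Field F] [NumberField F], Module.finrank ℚ F ≤ m → ∀ (ι : F →+* ℂ) (ξ : Fin g → ℂ)
      (T : ℝ), T₀ ≤ T → (Exceptional n d F ι ξ L A B T).Finite ∧
        ((Exceptional n d F ι ξ L A B T).ncard : ℝ) ≤ C * T ^ ε * ((Points F ι L T).ncard : ℝ) ^ (n - 1) := by
  classical
  obtain ⟨B, C, T₀, hC, hT₀, H⟩ := Y124.legNF (h := Fin g) m n d L hL (fun l hl => hL' l hl) A ε hε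
  refine ⟨B, C, T₀, fun F _ _ hF ι ξ T hT => ?_⟩
  have hT0 : 0 ≤ T := by linarith
  have hP : Points F ι L T = {x : F | Y120.HtLe F T x ∧ ι x ∈ L} := by
    ext x
    constructor
    · rintro ⟨h1, a, b, hb, hab, hx⟩
      exact ⟨⟨a, b, hb, Y120.house_le F hT0 fun φ => (hab φ).1, Y120.house_le F hT0 fun φ => (hab φ).2, hx⟩, h1⟩
    · rintro ⟨⟨a, b, hb, ha, hb', hx⟩, h1⟩
      exact ⟨h1, a, b, hb, fun φ => ⟨(Y120.house_ge F _ φ).trans ha, (Y120.house_ge F _ φ).trans hb'⟩, hx⟩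
  have hsub : Exceptional n d F ι ξ L A B T ⊆ Y124.ExcNF n d F ι ξ (fun t i => Y124.fC i t) L A B T := by
    rintro t ⟨ht, P, hPd, hPc, s₀, hs₀, hs⟩
    refine ⟨fun j => ?_, P, hPd, hPc, s₀, hs₀, ?_⟩
    · have h1 := ht j
      rw [hP] at h1
      exact h1
    · have h1 : (fun x : Fin n × Fin 3 => Y124.fC x.2 (ι (t x.1))) = periods fun j => ι (t j) := by
        funext ⟨j, i⟩
        fin_cases i
        · rfl
        · rfl
        · rfl
      rw [h1]
      exact hs
  obtain ⟨h1, h2⟩ := H F hF ι ξ T hT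
  refine ⟨h1.subset hsub, ?_⟩
  rw [hP]
  exact le_trans (by exact_mod_cast Set.ncard_le_ncard hsub h1) h2

end Pool.Agent.Results.MP_bbe012_lc.RelativeNumberFields
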